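import Pool.Agent.Helper5.PQ.Stm

/-! # Project PQ, package MN: the theorem for positive integers -/

set_option autoImplicit false

namespace Pool.Agent.Helper5.PQ

open Finset Classical Pool.Agent.Helper5.RD

/-- the core inequality -/
theorem core (hENC : S_ENC) (hPR2 : S_PR2) (hUC : S_UC) (hGC : S_GC) (hPH : S_PH) (hKQ : S_KQ)
    (δ θ ε : ℝ) (hδ : 0 < δ) (hδ1 : δ ≤ 1) (hθ : 0 < θ) (hε : 0 < ε) (hε1 : ε ≤ 1) :
    ∃ (N0 : ℕ) (C : ℝ), 1 ≤ C ∧ ∀ (A Q : Finset ℕ), N0 ≤ A.card → 0 ∉ A → A.Nonempty →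
      (∀ q ∈ Q, q.Prime ∧ δ * A.card ≤ ((A.filter (fun a => q * a ∈ A)).card : ℝ)) →
      θ * Real.log A.card ≤ Q.card → ∀ B : Finset ℤ, B.Nonempty →
      (B.card : ℝ) ≤ (A.card : ℝ) ^ (1 / ε) →
      ((A.card : ℝ) * B.card) ≤ C * ((A.card : ℝ) * B.card) ^ ε *
        (((A.image (Nat.cast : ℕ → ℤ) ×ˢ B).image (fun q => q.1 + q.2)).card : ℝ) := by
  obtain ⟨P, γ, Λ, T, N0, hK0, hK01, hK2, hγ, hγε, hΛ, hT1, hTδ, hN02, hN0⟩ :=
    hKQ ε θ (δ / 2) hε hε1 hθ (by positivity) (by linarith)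
  have hK1 : 1 ≤ P.K1 := hK0.trans hK01
  have hT1' : (1 : ℝ) ≤ T := by exact_mod_cast hT1
  have hK0' : (1 : ℝ) ≤ P.K0 := by exact_mod_cast hK0
  refine ⟨N0, 2 * (T : ℝ) ^ 2 * P.K0, ?_, ?_⟩
  · have : (1 : ℝ) ≤ (T : ℝ) ^ 2 := one_le_pow₀ hT1'
    nlinarith
  intro A Q hN h0 hA hQ hθQ B hB hBc
  set N : ℕ := A.card with hNdef
  obtain ⟨g, h, j, F0, hg, hTg, hh, k1, k2, k2', k3⟩ := hN0 N hN
  obtain ⟨A', hA'c, hA'1, hinj, hedg⟩ := hENC A Q δ h0 (fun q hq => (hQ q hq).1)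
    (fun q hq => (hQ q hq).2)
  have hTgQ : T * g ≤ Q.card := by
    have : ((T * g : ℕ) : ℝ) ≤ Q.card := by push_cast; linarith
    exact_mod_cast this
  have hNpos : 0 < N := card_pos.2 hA
  have hA'ne : A'.Nonempty := by rw [← card_pos, hA'c]; exact hNpos
  obtain ⟨Q0, Q1, hQ0, hQ1, hlt, hQ0c, hQ1c, A0, A1, hA0, hA1, hd0, hd1, hcap⟩ :=
    hPR2 Q g T (δ / 2) (by positivity) (by linarith) hg hTδ hTgQ A' h hA'ne
      (fun q hq => by rw [hA'c]; exact hedg q hq) hh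
  set ps : List ℕ := Q1.sort (· ≤ ·) with hps
  have hpsF : ps.toFinset = Q1 := by rw [hps, sort_toFinset]
  have hpsl : ps.length = g := by rw [hps, length_sort, hQ1c]
  have hpsn : ps.Nodup := by rw [hps]; exact sort_nodup _ _
  have hpsp : ∀ p ∈ ps, p.Prime := fun p hp => (hQ p (hQ1 (by rw [← hpsF]; simpa using hp))).1
  have hQ0p : ∀ q ∈ Q0, q.Prime := fun q hq => (hQ q (hQ0 hq)).1
  have hlt' : ∀ q ∈ Q0, ∀ p ∈ ps, q < p := fun q hq p hp =>
    hlt q hq p (by rw [← hpsF]; simpa using hp)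
  set R : Finset ℕ := Q0 ∪ ps.toFinset with hR
  have hRc : R.card ≤ 2 * g := by
    rw [hR, hpsF]
    exact (card_union_le _ _).trans (by omega)
  have hRp : ∀ q ∈ R, q.Prime := by
    intro q hq
    rcases mem_union.1 hq with hq | hq
    · exact hQ0p q hq
    · exact hpsp q (by simpa using hq)
  set X : Finset ℤ := A'.image (fun z => ((xp R z : ℕ) : ℤ)) with hX
  have hXc : X.card ≤ N := card_image_le.trans hA'c.le
  have hXm : ∀ z ∈ A', ((xp R z : ℕ) : ℤ) ∈ X := fun z hz => mem_image_of_mem _ hz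
  have hXc' : (X.card : ℝ) ≤ N := by exact_mod_cast hXc
  have hNr : (1 : ℝ) ≤ N := by exact_mod_cast hNpos
  have hBpos : (1 : ℝ) ≤ B.card := by exact_mod_cast card_pos.2 hB
  set M : ℝ := (1 + (P.K0 : ℝ) ^ (-γ)) ^ g * ((N : ℝ) * (N : ℝ) ^ (1 / ε)) ^ γ with hM
  have hA0c : A0.card ≤ N := (card_le_card hA0).trans hA'c.le
  have hA1c : A1.card ≤ N := (card_le_card hA1).trans hA'c.le
  have hA1c' : (A1.card : ℝ) ≤ N := by exact_mod_cast hA1c
  have hMpos : 0 ≤ M := by rw [hM]; positivity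
  -- unfinished
  have hU : ∀ b ∈ B, 4 * (T : ℝ) ^ 2 * ((A1.filter (fun z =>
      ¬ Fin1 P (run P (ps.zip (lst ps z.2)) (X, B) ((xp R z : ℕ) : ℤ) b))).card : ℝ) ≤ N := by
    intro b hb
    have h1 := hUC P γ hγ.le hK0 hK01 R ps subset_union_right hpsn hpsp A1 h
      (by rw [hpsF]; exact hd1) X B (fun z hz => hXm z (hA1 hz)) b hb
    rw [hpsl] at h1
    set u : ℝ := ((A1.filter (fun z =>
      ¬ Fin1 P (run P (ps.zip (lst ps z.2)) (X, B) ((xp R z : ℕ) : ℤ) b))).card : ℝ) with hu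
    have h2 : ((1 + (P.K0 : ℝ) ^ (-γ)) ^ g * ((X.card : ℝ) * B.card) ^ γ) ≤ M := by
      rw [hM]
      have : ((X.card : ℝ) * B.card) ^ γ ≤ ((N : ℝ) * (N : ℝ) ^ (1 / ε)) ^ γ := by
        apply Real.rpow_le_rpow (by positivity) _ hγ.le
        exact mul_le_mul hXc' hBc (by positivity) (by positivity)
      gcongr
    have h3 : (2 : ℝ) ^ h * u ≤ N * M := h1.trans (by gcongr)
    have h4 : (0 : ℝ) < 2 ^ h := by positivity
    have h5 : (2 : ℝ) ^ h * (4 * (T : ℝ) ^ 2 * u) ≤ 2 ^ h * N := by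
      calc (2 : ℝ) ^ h * (4 * (T : ℝ) ^ 2 * u) = 4 * (T : ℝ) ^ 2 * (2 ^ h * u) := by ring
        _ ≤ 4 * (T : ℝ) ^ 2 * (N * M) := by gcongr
        _ = N * (4 * (T : ℝ) ^ 2 * M) := by ring
        _ ≤ N * 2 ^ h := by gcongr
        _ = 2 ^ h * N := by ring
    exact le_of_mul_le_mul_left h5 h4
  -- non generic
  have hV : ∀ b ∈ B, 4 * (T : ℝ) ^ 2 * ((A0.filter (fun z =>
      F0 < bads P (sp R z) (ps.zip (lst ps z.2)) (X, B) ((xp R z : ℕ) : ℤ) b)).card : ℝ) ≤ N := by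
    intro b _
    have h1 := hGC P hK1 hK2 Q0 ps hQ0p hpsp hpsn hlt' A0 h hd0 X B b F0 j
    rw [hpsl, ← hR] at h1
    set v : ℕ := (A0.filter (fun z =>
      F0 < bads P (sp R z) (ps.zip (lst ps z.2)) (X, B) ((xp R z : ℕ) : ℤ) b)).card with hv
    set c0 : ℕ := (F0 + 1).choose (2 * j) * h.choose j with hc0
    have h2 : c0 * (4 * T ^ 2 * v) ≤ c0 * N := by
      calc c0 * (4 * T ^ 2 * v) = 4 * T ^ 2 * (c0 * v) := by ring
        _ ≤ 4 * T ^ 2 * (((P.K1 * P.K2) ^ 2) ^ (2 * j) * g.choose (2 * j) * A0.card) := by gcongr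
        _ = 4 * T ^ 2 * (((P.K1 * P.K2) ^ 2) ^ (2 * j) * g.choose (2 * j)) * A0.card := by ring
        _ ≤ c0 * A0.card := by gcongr
        _ ≤ c0 * N := by gcongr
    have h3 : 4 * T ^ 2 * v ≤ N := Nat.le_of_mul_le_mul_left h2 (by omega)
    exact_mod_cast h3
  -- good pairs
  set G : Finset ((ℕ × Finset ℕ) × ℤ) := ((A0 ∩ A1) ×ˢ B).filter (fun w =>
    Fin1 P (run P (ps.zip (lst ps w.1.2)) (X, B) ((xp R w.1 : ℕ) : ℤ) w.2) ∧
    bads P (sp R w.1) (ps.zip (lst ps w.1.2)) (X, B) ((xp R w.1 : ℕ) : ℤ) w.2 ≤ F0) with hG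
  have hGc : (N : ℝ) * B.card ≤ 2 * (T : ℝ) ^ 2 * G.card := by
    have e1 : (G.card : ℝ) = ∑ b ∈ B, (((A0 ∩ A1).filter (fun z =>
        Fin1 P (run P (ps.zip (lst ps z.2)) (X, B) ((xp R z : ℕ) : ℤ) b) ∧
        bads P (sp R z) (ps.zip (lst ps z.2)) (X, B) ((xp R z : ℕ) : ℤ) b ≤ F0)).card : ℝ) := by
      rw [hG, card_filter]
      push_cast
      rw [sum_product_right]
      refine sum_congr rfl fun b _ => ?_
      rw [card_filter]
      push_cast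
      rfl
    have e2 : ∀ b ∈ B, (N : ℝ) / (2 * (T : ℝ) ^ 2) ≤ (((A0 ∩ A1).filter (fun z =>
        Fin1 P (run P (ps.zip (lst ps z.2)) (X, B) ((xp R z : ℕ) : ℤ) b) ∧
        bads P (sp R z) (ps.zip (lst ps z.2)) (X, B) ((xp R z : ℕ) : ℤ) b ≤ F0)).card : ℝ) := by
      intro b hb
      have f1 := hU b hb
      have f2 := hV b hb
      set U := A1.filter (fun z =>
        ¬ Fin1 P (run P (ps.zip (lst ps z.2)) (X, B) ((xp R z : ℕ) : ℤ) b)) with hUdef
      set V := A0.filter (fun z =>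
        F0 < bads P (sp R z) (ps.zip (lst ps z.2)) (X, B) ((xp R z : ℕ) : ℤ) b) with hVdef
      set W := (A0 ∩ A1).filter (fun z =>
        Fin1 P (run P (ps.zip (lst ps z.2)) (X, B) ((xp R z : ℕ) : ℤ) b) ∧
        bads P (sp R z) (ps.zip (lst ps z.2)) (X, B) ((xp R z : ℕ) : ℤ) b ≤ F0) with hWdef
      have f3 : (A0 ∩ A1) ⊆ W ∪ (U ∪ V) := by
        intro z hz
        have hz0 := (mem_inter.1 hz).1
        have hz1 := (mem_inter.1 hz).2
        by_cases a1 : Fin1 P (run P (ps.zip (lst ps z.2)) (X, B) ((xp R z : ℕ) : ℤ) b)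
        · by_cases a2 : bads P (sp R z) (ps.zip (lst ps z.2)) (X, B) ((xp R z : ℕ) : ℤ) b ≤ F0
          · exact mem_union_left _ (mem_filter.2 ⟨hz, a1, a2⟩)
          · exact mem_union_right _ (mem_union_right _ (mem_filter.2 ⟨hz0, not_le.1 a2⟩))
        · exact mem_union_right _ (mem_union_left _ (mem_filter.2 ⟨hz1, a1⟩))
      have f4 : (A0 ∩ A1).card ≤ W.card + (U.card + V.card) :=
        (card_le_card f3).trans ((card_union_le _ _).trans (by
          gcongr; exact card_union_le _ _))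
      have f4' : ((A0 ∩ A1).card : ℝ) ≤ W.card + (U.card + V.card) := by exact_mod_cast f4
      have f5 : (N : ℝ) ≤ (T : ℝ) ^ 2 * (A0 ∩ A1).card := by
        have : N ≤ T ^ 2 * (A0 ∩ A1).card := le_of_eq_of_le hA'c.symm hcap
        exact_mod_cast this
      have f6 : (0 : ℝ) < 2 * (T : ℝ) ^ 2 := by positivity
      rw [div_le_iff₀ f6]
      have f7 : (T : ℝ) ^ 2 * ((A0 ∩ A1).card : ℝ) ≤ (T : ℝ) ^ 2 * (W.card + (U.card + V.card)) := by
        gcongr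
      nlinarith
    have e3 : (N : ℝ) / (2 * (T : ℝ) ^ 2) * B.card ≤ G.card := by
      rw [e1]
      calc (N : ℝ) / (2 * (T : ℝ) ^ 2) * B.card = ∑ _b ∈ B, (N : ℝ) / (2 * (T : ℝ) ^ 2) := by
            rw [sum_const, nsmul_eq_mul]; ring
        _ ≤ _ := sum_le_sum e2
    have f6 : (0 : ℝ) < 2 * (T : ℝ) ^ 2 := by positivity
    calc (N : ℝ) * B.card = 2 * (T : ℝ) ^ 2 * ((N : ℝ) / (2 * (T : ℝ) ^ 2) * B.card) := by
          field_simp
      _ ≤ 2 * (T : ℝ) ^ 2 * G.card := by gcongr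
  have hPG := hPH P γ Λ hγ hK0 hK1 hK2 hΛ R ps hRp subset_union_right hpsn A A'
    (fun z hz => (hA'1 z hz).2.2) hinj X B hXm F0 G (by
      intro w hw
      rw [hG, mem_filter, mem_product] at hw
      exact ⟨hA0 (mem_inter.1 hw.1.1).1, hw.1.2, hw.2.1, hw.2.2⟩)
  rw [hpsl] at hPG
  set S : ℝ := (((A.image (Nat.cast : ℕ → ℤ) ×ˢ B).image (fun q => q.1 + q.2)).card : ℝ) with hS
  have hS0 : 0 ≤ S := by rw [hS]; positivity
  have hΛ1 : 0 ≤ Λ := by
    have : (0 : ℝ) ≤ 1 + (P.K0 : ℝ) * (P.K1 : ℝ) ^ (-γ) + (P.K1 : ℝ) * (P.K2 : ℝ) ^ (-γ) +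
      (P.K0 : ℝ) ^ (-γ) := by positivity
    linarith
  have hNB : (1 : ℝ) ≤ (N : ℝ) * B.card := by nlinarith
  have c1 : (2 : ℝ) ^ R.card ≤ 2 ^ (2 * g) := pow_le_pow_right₀ (by norm_num) hRc
  have c2 : ((X.card : ℝ) * B.card) ^ γ ≤ ((N : ℝ) * B.card) ^ (ε / 2) := by
    calc ((X.card : ℝ) * B.card) ^ γ ≤ ((N : ℝ) * B.card) ^ γ := by
          apply Real.rpow_le_rpow (by positivity) _ hγ.le
          gcongr
      _ ≤ ((N : ℝ) * B.card) ^ (ε / 2) := Real.rpow_le_rpow_of_exponent_le hNB hγε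
  have c3 : (N : ℝ) ^ (ε / 2) ≤ ((N : ℝ) * B.card) ^ (ε / 2) := by
    apply Real.rpow_le_rpow (by positivity) _ (by positivity)
    nlinarith
  have c4 : ((N : ℝ) * B.card) ^ (ε / 2) * ((N : ℝ) * B.card) ^ (ε / 2) =
      ((N : ℝ) * B.card) ^ ε := by
    rw [← Real.rpow_add (by linarith)]
    congr 1
    ring
  calc (N : ℝ) * B.card ≤ 2 * (T : ℝ) ^ 2 * G.card := hGc
    _ ≤ 2 * (T : ℝ) ^ 2 * (2 ^ R.card *
        (P.K0 * Λ ^ g * ((X.card : ℝ) * B.card) ^ γ * (P.K1 : ℝ) ^ F0) * S) := by gcongr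
    _ ≤ 2 * (T : ℝ) ^ 2 * (2 ^ (2 * g) *
        (P.K0 * Λ ^ g * ((N : ℝ) * B.card) ^ (ε / 2) * (P.K1 : ℝ) ^ F0) * S) := by gcongr
    _ = 2 * (T : ℝ) ^ 2 * P.K0 * ((2 : ℝ) ^ (2 * g) * Λ ^ g * (P.K1 : ℝ) ^ F0) *
        ((N : ℝ) * B.card) ^ (ε / 2) * S := by ring
    _ ≤ 2 * (T : ℝ) ^ 2 * P.K0 * (((N : ℝ) * B.card) ^ (ε / 2)) *
        ((N : ℝ) * B.card) ^ (ε / 2) * S := by
          have := k3.trans c3
          gcongr
    _ = 2 * (T : ℝ) ^ 2 * P.K0 * ((N : ℝ) * B.card) ^ ε * S := by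
          rw [← c4]; ring

theorem mn (hENC : S_ENC) (hPR2 : S_PR2) (hUC : S_UC) (hGC : S_GC) (hPH : S_PH) (hKQ : S_KQ) :
    S_MN := by
  intro δ θ ε hδ hθ hε
  set δ' := min δ 1 with hδ'
  set ε' := min ε 1 with hε'
  have hδ'0 : 0 < δ' := lt_min hδ one_pos
  have hε'0 : 0 < ε' := lt_min hε one_pos
  obtain ⟨N0, C, hC, hcore⟩ := core hENC hPR2 hUC hGC hPH hKQ δ' θ ε' hδ'0 (min_le_right _ _) hθ
    hε'0 (min_le_right _ _)
  refine ⟨1 / (C * (N0 + 1)), by positivity, ?_⟩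
  intro A Q hA h0 hQ hθQ B hB
  set S : ℝ := (((A.image (Nat.cast : ℕ → ℤ) ×ˢ B).image (fun q => q.1 + q.2)).card : ℝ) with hS
  have hApos : (1 : ℝ) ≤ A.card := by exact_mod_cast card_pos.2 hA
  have hBpos : (1 : ℝ) ≤ B.card := by exact_mod_cast card_pos.2 hB
  have hAB : (1 : ℝ) ≤ (A.card : ℝ) * B.card := by nlinarith
  have hBS : (B.card : ℝ) ≤ S := by
    obtain ⟨a, ha⟩ := hA
    have : B.image (fun b => (a : ℤ) + b) ⊆
        (A.image (Nat.cast : ℕ → ℤ) ×ˢ B).image (fun q => q.1 + q.2) := by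
      intro y hy
      obtain ⟨b, hb, rfl⟩ := mem_image.1 hy
      exact mem_image.2 ⟨((a : ℤ), b), mem_product.2 ⟨mem_image_of_mem _ ha, hb⟩, rfl⟩
    have h2 := card_le_card this
    rw [card_image_of_injective _ (add_right_injective _)] at h2
    rw [hS]
    exact_mod_cast h2
  have hexp : ((A.card : ℝ) * B.card) ^ (1 - ε) ≤ ((A.card : ℝ) * B.card) ^ (1 - ε') :=
    Real.rpow_le_rpow_of_exponent_le hAB (by linarith [min_le_left ε 1])
  have hCN : (1 : ℝ) ≤ C * (N0 + 1) := by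
    have : (1 : ℝ) ≤ N0 + 1 := by
      have : (0 : ℝ) ≤ N0 := by positivity
      linarith
    nlinarith
  have hCN0 : (0 : ℝ) < C * (N0 + 1) := by linarith
  rw [div_mul_eq_mul_div, one_mul, div_le_iff₀ hCN0]
  refine hexp.trans ?_
  have hε'1 : ε' ≤ 1 := min_le_right _ _
  by_cases hN : A.card < N0
  · have h1 : ((A.card : ℝ) * B.card) ^ (1 - ε') ≤ (A.card : ℝ) * B.card := by
      calc _ ≤ ((A.card : ℝ) * B.card) ^ (1 : ℝ) :=
            Real.rpow_le_rpow_of_exponent_le hAB (by linarith)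
        _ = _ := Real.rpow_one _
    have h2 : (A.card : ℝ) ≤ N0 + 1 := by
      have : (A.card : ℝ) < N0 := by exact_mod_cast hN
      linarith
    have h3 : (0 : ℝ) ≤ S := by linarith
    calc _ ≤ (A.card : ℝ) * B.card := h1
      _ ≤ (N0 + 1) * S := by gcongr
      _ ≤ S * (C * (N0 + 1)) := by
        have : (0 : ℝ) ≤ (N0 + 1) * S := by positivity
        nlinarith
  · rw [not_lt] at hN
    by_cases hBc : (B.card : ℝ) ≤ (A.card : ℝ) ^ (1 / ε')
    · have h1 := hcore A Q hN h0 hA (fun q hq => ⟨(hQ q hq).1, le_trans (by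
        gcongr; exact min_le_left _ _) (hQ q hq).2⟩) hθQ B hB hBc
      have h2 : (0 : ℝ) < ((A.card : ℝ) * B.card) ^ ε' := Real.rpow_pos_of_pos (by linarith) _
      have h3 : ((A.card : ℝ) * B.card) ^ (1 - ε') * ((A.card : ℝ) * B.card) ^ ε' =
          (A.card : ℝ) * B.card := by
        rw [← Real.rpow_add (by linarith)]
        simp
      have h4 : ((A.card : ℝ) * B.card) ^ (1 - ε') ≤ C * S := by
        have : ((A.card : ℝ) * B.card) ^ (1 - ε') * ((A.card : ℝ) * B.card) ^ ε' ≤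
            (C * S) * ((A.card : ℝ) * B.card) ^ ε' := by
          rw [h3]
          calc _ ≤ _ := h1
            _ = _ := by ring
        exact le_of_mul_le_mul_right this h2
      have h5 : (0 : ℝ) ≤ S := by linarith
      have h6 : (0 : ℝ) ≤ N0 := by positivity
      have h7 : 0 ≤ C * S := by positivity
      calc _ ≤ C * S := h4
        _ ≤ S * (C * (N0 + 1)) := by nlinarith
    · rw [not_le] at hBc
      have h1 : (A.card : ℝ) ≤ (B.card : ℝ) ^ ε' := by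
        have h2 : ((A.card : ℝ) ^ (1 / ε')) ^ ε' = A.card := by
          rw [← Real.rpow_mul (by positivity)]
          rw [one_div, inv_mul_cancel₀ hε'0.ne', Real.rpow_one]
        rw [← h2]
        exact Real.rpow_le_rpow (by positivity) hBc.le hε'0.le
      have h3 : ((A.card : ℝ) * B.card) ^ (1 - ε') ≤ B.card := by
        calc ((A.card : ℝ) * B.card) ^ (1 - ε') ≤ ((B.card : ℝ) ^ ε' * B.card) ^ (1 - ε') := by
              apply Real.rpow_le_rpow (by positivity) _ (by linarith)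
              gcongr
          _ = (B.card : ℝ) ^ ((ε' + 1) * (1 - ε')) := by
              rw [Real.rpow_mul (by positivity), Real.rpow_add (by linarith), Real.rpow_one]
          _ ≤ (B.card : ℝ) ^ (1 : ℝ) :=
              Real.rpow_le_rpow_of_exponent_le hBpos (by nlinarith)
          _ = B.card := Real.rpow_one _
      have h5 : (0 : ℝ) ≤ S := by linarith
      calc _ ≤ (B.card : ℝ) := h3
        _ ≤ S := hBS
        _ ≤ S * (C * (N0 + 1)) := by nlinarith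

end Pool.Agent.Helper5.PQ
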