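import Pool.Agent.Helper5.PQ.Stm

/-! # Project PQ, package PR1: pruning -/

set_option autoImplicit false

namespace Pool.Agent.Helper5.PQ

open Finset Classical

/-- the neighbour of `z` in the direction `q` -/
def nb (q : ℕ) (z : ℕ × Finset ℕ) : ℕ × Finset ℕ := (z.1, symmDiff z.2 {q})

theorem nb_nb (q : ℕ) (z : ℕ × Finset ℕ) : nb q (nb q z) = z := by
  simp [nb]

theorem nb_ne (q : ℕ) (z : ℕ × Finset ℕ) : nb q z ≠ z := by
  intro h
  have h1 : symmDiff z.2 {q} = z.2 := congrArg Prod.snd h
  have h2 : ({q} : Finset ℕ) = ∅ := by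
    have : symmDiff z.2 (symmDiff z.2 {q}) = symmDiff z.2 z.2 := by rw [h1]
    simpa using this
  simp at h2

/-- the points with a neighbour in the direction `q` -/
noncomputable def gq (q : ℕ) (S : Finset (ℕ × Finset ℕ)) : Finset (ℕ × Finset ℕ) :=
  S.filter (fun z => nb q z ∈ S)

theorem gq_erase (q : ℕ) (S : Finset (ℕ × Finset ℕ)) (z : ℕ × Finset ℕ) (hz : z ∈ S) :
    ((gq q (S.erase z)).card : ℤ) = (gq q S).card - 2 * (if nb q z ∈ S then 1 else 0) := by
  by_cases h : nb q z ∈ S
  · rw [if_pos h]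
    have h1 : gq q (S.erase z) = ((gq q S).erase z).erase (nb q z) := by
      ext w
      simp only [gq, mem_filter, mem_erase]
      constructor
      · rintro ⟨⟨a, b⟩, c, d⟩
        refine ⟨?_, a, b, d⟩
        rintro rfl
        exact c (nb_nb q z)
      · rintro ⟨a, b, c, d⟩
        refine ⟨⟨b, c⟩, ?_, d⟩
        rintro rfl
        exact a (nb_nb q w).symm
    have h2 : z ∈ gq q S := mem_filter.2 ⟨hz, h⟩
    have h3 : nb q z ∈ (gq q S).erase z :=
      mem_erase.2 ⟨nb_ne q z, mem_filter.2 ⟨h, by rw [nb_nb]; exact hz⟩⟩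
    have h4 := card_erase_add_one h2
    have h5 := card_erase_add_one h3
    rw [h1]
    omega
  · rw [if_neg h]
    have h1 : gq q (S.erase z) = gq q S := by
      ext w
      simp only [gq, mem_filter, mem_erase]
      constructor
      · rintro ⟨⟨a, b⟩, c, d⟩
        exact ⟨b, d⟩
      · rintro ⟨b, d⟩
        refine ⟨⟨?_, b⟩, ?_, d⟩
        · rintro rfl
          exact h d
        · rintro rfl
          rw [nb_nb] at h
          exact h b
    rw [h1]
    omega

theorem deg_eq (R : Finset ℕ) (S : Finset (ℕ × Finset ℕ)) (z : ℕ × Finset ℕ) :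
    (DegA R S z : ℤ) = ∑ q ∈ R, (if nb q z ∈ S then 1 else 0) := by
  rw [DegA, card_filter]
  push_cast
  rfl

/-- twice the number of edges -/
noncomputable def ff (R : Finset ℕ) (S : Finset (ℕ × Finset ℕ)) : ℤ := ∑ q ∈ R, ((gq q S).card : ℤ)

theorem ff_erase (R : Finset ℕ) (S : Finset (ℕ × Finset ℕ)) (z : ℕ × Finset ℕ) (hz : z ∈ S) :
    ff R (S.erase z) = ff R S - 2 * DegA R S z := by
  rw [ff, ff, deg_eq, mul_sum, ← sum_sub_distrib]
  exact sum_congr rfl fun q _ => gq_erase q S z hz

theorem edg_le (q : ℕ) (S : Finset (ℕ × Finset ℕ)) : 2 * Edg S q ≤ (gq q S).card := by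
  set E := S.filter (fun z => q ∉ z.2 ∧ (z.1, insert q z.2) ∈ S) with hE
  have key : ∀ z ∈ E, nb q z = (z.1, insert q z.2) := by
    intro z hz
    have h1 : q ∉ z.2 := (mem_filter.1 hz).2.1
    rw [nb]
    congr 1
    ext x
    simp only [mem_symmDiff, mem_singleton, mem_insert]
    constructor
    · rintro (⟨a, b⟩ | ⟨a, b⟩)
      · exact Or.inr a
      · exact Or.inl a
    · rintro (rfl | a)
      · exact Or.inr ⟨rfl, h1⟩
      · by_cases hx : x = q
        · subst hx; exact absurd a h1
        · exact Or.inl ⟨a, hx⟩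
  have h1 : E ⊆ gq q S := by
    intro z hz
    refine mem_filter.2 ⟨(mem_filter.1 hz).1, ?_⟩
    rw [key z hz]
    exact (mem_filter.1 hz).2.2
  have h2 : E.image (nb q) ⊆ gq q S := by
    intro w hw
    obtain ⟨z, hz, rfl⟩ := mem_image.1 hw
    refine mem_filter.2 ⟨?_, ?_⟩
    · rw [key z hz]
      exact (mem_filter.1 hz).2.2
    · rw [nb_nb]
      exact (mem_filter.1 hz).1
  have h3 : Disjoint E (E.image (nb q)) := by
    rw [disjoint_left]
    intro w hw hw'
    obtain ⟨z, hz, rfl⟩ := mem_image.1 hw'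
    rw [key z hz] at hw
    exact (mem_filter.1 hw).2.1 (mem_insert_self _ _)
  have h4 : (E.image (nb q)).card = E.card :=
    card_image_of_injective _ (fun a b hab => by
      have := congrArg (nb q) hab
      rwa [nb_nb, nb_nb] at this)
  have h5 : Edg S q = E.card := rfl
  calc 2 * Edg S q = E.card + (E.image (nb q)).card := by rw [h4, h5]; ring
    _ = (E ∪ E.image (nb q)).card := (card_union_of_disjoint h3).symm
    _ ≤ _ := card_le_card (union_subset h1 h2)

theorem pr1 : S_PR1 := by
  intro A R δ h hδ hδ1 hE hh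
  by_cases hR : R.card = 0
  · have hh0 : h = 0 := by
      rw [hR] at hh
      have : (h : ℝ) ≤ 0 := by
        push_cast at hh
        linarith
      exact_mod_cast le_antisymm this (by positivity)
    subst hh0
    refine ⟨A, Subset.rfl, fun z _ => Nat.zero_le _, ?_⟩
    have : (0 : ℝ) ≤ A.card := by positivity
    nlinarith
  obtain ⟨S, hS, hmax⟩ := exists_max_image A.powerset
    (fun S => ff R S - 2 * (h : ℤ) * S.card) ⟨A, mem_powerset_self A⟩
  have hSA : S ⊆ A := mem_powerset.1 hS
  refine ⟨S, hSA, ?_, ?_⟩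
  · intro z hz
    have h1 := hmax (S.erase z) (mem_powerset.2 ((erase_subset _ _).trans hSA))
    rw [ff_erase R S z hz] at h1
    have h2 := card_erase_add_one hz
    have h3 : ((S.erase z).card : ℤ) + 1 = S.card := by exact_mod_cast h2
    have h4 : (h : ℤ) ≤ DegA R S z := by
      have h5 : ((S.erase z).card : ℤ) = S.card - 1 := by linarith
      rw [h5] at h1
      nlinarith
    exact_mod_cast h4
  · have h1 := hmax A (mem_powerset_self A)
    have h2 : (ff R S : ℝ) ≤ R.card * S.card := by
      have : ff R S ≤ ∑ _q ∈ R, (S.card : ℤ) :=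
        sum_le_sum fun q _ => by exact_mod_cast card_filter_le _ _
      rw [sum_const, nsmul_eq_mul] at this
      exact_mod_cast this
    have h3 : 2 * δ * (R.card * A.card) ≤ (ff R A : ℝ) := by
      rw [ff]
      push_cast
      calc 2 * δ * (R.card * A.card) = ∑ _q ∈ R, 2 * (δ * A.card) := by
            rw [sum_const, nsmul_eq_mul]; ring
        _ ≤ ∑ q ∈ R, ((gq q A).card : ℝ) := by
            refine sum_le_sum fun q hq => ?_
            have h4 := hE q hq
            have h5 : (2 * (Edg A q : ℝ)) ≤ (gq q A).card := by exact_mod_cast edg_le q A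
            linarith
    have h4 : (ff R A : ℝ) - 2 * h * A.card ≤ ff R S - 2 * h * S.card := by exact_mod_cast h1
    have h5 : (0 : ℝ) < R.card := by
      exact_mod_cast Nat.pos_of_ne_zero hR
    have h6 : (0 : ℝ) ≤ 2 * h * S.card := by positivity
    have h7 : 2 * (h : ℝ) * A.card ≤ δ * R.card * A.card := by gcongr
    have h8 : (R.card : ℝ) * (δ * A.card) ≤ R.card * S.card := by nlinarith
    exact le_of_mul_le_mul_left h8 h5

end Pool.Agent.Helper5.PQ
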