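import Pool.Agent.Helper5.PQ.Stm

/-! # Project PQ, package PR2: two blocks -/

set_option autoImplicit false

namespace Pool.Agent.Helper5.PQ

open Finset Classical

theorem incl {α : Type} [DecidableEq α] (A : Finset α) (T : ℕ) (S : ℕ → Finset α) (hS : ∀ i < T, S i ⊆ A)
    (hA : A.Nonempty) (hT : 1 ≤ T) (hsum : 2 * A.card ≤ ∑ i ∈ range T, (S i).card) :
    ∃ i j, i < j ∧ j < T ∧ A.card ≤ T ^ 2 * (S i ∩ S j).card := by
  by_contra hcon
  push Not at hcon
  set D : α → Finset ℕ := fun a => (range T).filter (fun i => a ∈ S i) with hD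
  have h1 : ∑ i ∈ range T, (S i).card = ∑ a ∈ A, (D a).card := by
    have e1 : ∀ i ∈ range T, (S i).card = ∑ a ∈ A, if a ∈ S i then 1 else 0 := by
      intro i hi
      rw [← card_filter]
      congr 1
      ext a
      simp only [mem_filter]
      exact ⟨fun h => ⟨hS i (mem_range.1 hi) h, h⟩, fun h => h.2⟩
    rw [sum_congr rfl e1, sum_comm]
    refine sum_congr rfl fun a _ => ?_
    rw [hD, card_filter]
  have h2 : ∑ p ∈ (range T).offDiag, (S p.1 ∩ S p.2).card = ∑ a ∈ A, (D a).offDiag.card := by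
    have e1 : ∀ p ∈ (range T).offDiag, (S p.1 ∩ S p.2).card =
        ∑ a ∈ A, if a ∈ S p.1 ∧ a ∈ S p.2 then 1 else 0 := by
      intro p hp
      rw [← card_filter]
      congr 1
      ext a
      simp only [mem_filter, mem_inter]
      exact ⟨fun h => ⟨hS p.1 (mem_range.1 (mem_offDiag.1 hp).1) h.1, h⟩, fun h => h.2⟩
    rw [sum_congr rfl e1, sum_comm]
    refine sum_congr rfl fun a _ => ?_
    rw [← card_filter]
    congr 1
    ext p
    simp only [hD, mem_filter, mem_offDiag]
    tauto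
  have h3 : ∑ a ∈ A, (D a).card ≤ A.card + ∑ a ∈ A, (D a).offDiag.card := by
    rw [card_eq_sum_ones, ← sum_add_distrib]
    refine sum_le_sum fun a _ => ?_
    rw [offDiag_card]
    rcases Nat.lt_or_ge (D a).card 2 with h | h
    · omega
    · have : (D a).card + (D a).card ≤ (D a).card * (D a).card := by nlinarith
      omega
  have h4 : T ^ 2 * ∑ p ∈ (range T).offDiag, (S p.1 ∩ S p.2).card ≤ (T * T - T) * A.card := by
    rw [mul_sum]
    calc ∑ p ∈ (range T).offDiag, T ^ 2 * (S p.1 ∩ S p.2).card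
        ≤ ∑ _p ∈ (range T).offDiag, A.card := by
          refine sum_le_sum fun p hp => ?_
          obtain ⟨a1, a2, a3⟩ := mem_offDiag.1 hp
          rcases lt_or_gt_of_ne a3 with h | h
          · exact (hcon _ _ h (mem_range.1 a2)).le
          · rw [inter_comm]
            exact (hcon _ _ h (mem_range.1 a1)).le
      _ = (T * T - T) * A.card := by
          rw [sum_const, smul_eq_mul, offDiag_card, card_range]
  have hA' : 0 < A.card := card_pos.2 hA
  have h5 : T * T - T + 1 ≤ T * T := by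
    have : 1 ≤ T * T := Nat.mul_pos hT hT
    omega
  have h6 : T ^ 2 * (2 * A.card) ≤ T ^ 2 * A.card + (T * T - T) * A.card := by
    calc T ^ 2 * (2 * A.card) ≤ T ^ 2 * ∑ i ∈ range T, (S i).card := by gcongr
      _ ≤ T ^ 2 * (A.card + ∑ p ∈ (range T).offDiag, (S p.1 ∩ S p.2).card) := by
          rw [h1, h2]; gcongr
      _ = T ^ 2 * A.card + T ^ 2 * ∑ p ∈ (range T).offDiag, (S p.1 ∩ S p.2).card := by ring
      _ ≤ _ := by gcongr
  have h7 : (T * T - T) * A.card + A.card ≤ T ^ 2 * A.card := by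
    calc (T * T - T) * A.card + A.card = (T * T - T + 1) * A.card := by ring
      _ ≤ (T * T) * A.card := by gcongr
      _ = T ^ 2 * A.card := by ring
  nlinarith

theorem pr2 (hPR1 : S_PR1) : S_PR2 := by
  intro Q g T δ hδ hδ1 hg hT hTg A h hA hE hh
  set f : ℕ → ℕ := fun n => if h : n < Q.card then Q.orderEmbOfFin rfl ⟨n, h⟩ else 0 with hf
  have hfm : ∀ n, n < Q.card → f n ∈ Q := by
    intro n hn
    rw [hf]
    simp only [hn, dif_pos]
    exact orderEmbOfFin_mem _ _ _
  have hflt : ∀ n m, n < m → m < Q.card → f n < f m := by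
    intro n m hnm hm
    rw [hf]
    simp only [hm, hnm.trans hm, dif_pos]
    exact (Q.orderEmbOfFin rfl).strictMono (by simpa using hnm)
  set blk : ℕ → Finset ℕ := fun i => (Ico (i * g) ((i + 1) * g)).image f with hblk
  have hend : ∀ i < T, (i + 1) * g ≤ Q.card := fun i hi =>
    (Nat.mul_le_mul_right g hi).trans hTg
  have hbs : ∀ i < T, blk i ⊆ Q := by
    intro i hi q hq
    obtain ⟨n, hn, rfl⟩ := mem_image.1 hq
    exact hfm n ((mem_Ico.1 hn).2.trans_le (hend i hi))
  have hbc : ∀ i < T, (blk i).card = g := by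
    intro i hi
    rw [hblk]
    simp only
    rw [card_image_of_injOn, Nat.card_Ico]
    · have : (i + 1) * g = i * g + g := by ring
      omega
    · intro a ha b hb hab
      have ha' := mem_Ico.1 (mem_coe.1 ha)
      have hb' := mem_Ico.1 (mem_coe.1 hb)
      rcases lt_trichotomy a b with h1 | h1 | h1
      · exact absurd hab (hflt a b h1 (hb'.2.trans_le (hend i hi))).ne
      · exact h1
      · exact absurd hab (hflt b a h1 (ha'.2.trans_le (hend i hi))).ne'
  have hex : ∀ i, ∃ S : Finset (ℕ × Finset ℕ), i < T → (S ⊆ A ∧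
      (∀ z ∈ S, h ≤ DegA (blk i) S z) ∧ δ * A.card ≤ (S.card : ℝ)) := by
    intro i
    by_cases hi : i < T
    · obtain ⟨S, h1, h2, h3⟩ := hPR1 A (blk i) δ h hδ hδ1 (fun q hq => hE q (hbs i hi hq))
        (by rw [hbc i hi]; exact hh)
      exact ⟨S, fun _ => ⟨h1, h2, h3⟩⟩
    · exact ⟨∅, fun h' => absurd h' hi⟩
  choose S hS using hex
  have hT1 : 1 ≤ T := by
    by_contra h0
    have : T = 0 := by omega
    subst this
    norm_num at hT
  have hApos : (0 : ℝ) < A.card := by exact_mod_cast card_pos.2 hA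
  have hsum : 2 * A.card ≤ ∑ i ∈ range T, (S i).card := by
    have : (2 : ℝ) * A.card ≤ ∑ i ∈ range T, ((S i).card : ℝ) := by
      calc (2 : ℝ) * A.card ≤ (δ * T) * A.card := by gcongr
        _ = ∑ _i ∈ range T, δ * A.card := by rw [sum_const, card_range, nsmul_eq_mul]; ring
        _ ≤ _ := sum_le_sum fun i hi => (hS i (mem_range.1 hi)).2.2
    exact_mod_cast this
  obtain ⟨i, j, hij, hj, hcap⟩ := incl A T S (fun i hi => (hS i hi).1) hA hT1 hsum
  have hi : i < T := hij.trans hj
  refine ⟨blk i, blk j, hbs i hi, hbs j hj, ?_, hbc i hi, hbc j hj, S i, S j, (hS i hi).1,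
    (hS j hj).1, (hS i hi).2.1, (hS j hj).2.1, hcap⟩
  intro q hq p hp
  obtain ⟨n, hn, rfl⟩ := mem_image.1 hq
  obtain ⟨m, hm, rfl⟩ := mem_image.1 hp
  have hn' := mem_Ico.1 hn
  have hm' := mem_Ico.1 hm
  refine hflt n m ?_ (hm'.2.trans_le (hend j hj))
  have : (i + 1) * g ≤ j * g := Nat.mul_le_mul_right g hij
  omega

end Pool.Agent.Helper5.PQ
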