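import Pool.Agent.Helper5.RD.Stm5

/-!
# Project PQ (MP_cc0731_co): popular prime quotients

Theorem: for all `δ, θ, ε > 0` there is `c > 0` such that, if `A` is a finite set of nonzero integers
and at least `θ log |A|` primes `q` satisfy `|A ∩ q⁻¹ A| ≥ δ |A|`, then
`|A + B| ≥ c (|A| |B|) ^ (1 - ε)` for every nonempty finite set `B` of integers.
-/

namespace Pool.Agent.Helper5.PQ

open Finset Classical Pool.Agent.Helper5.RD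

noncomputable section

/-- The number of pairs `z`, `z` with `q` added, in `A`. -/
def Edg (A : Finset (ℕ × Finset ℕ)) (q : ℕ) : ℕ :=
  (A.filter (fun z => q ∉ z.2 ∧ (z.1, insert q z.2) ∈ A)).card

/-- The number of directions `q ∈ R` in which `z` has a neighbour in `A`. -/
def DegA (R : Finset ℕ) (A : Finset (ℕ × Finset ℕ)) (z : ℕ × Finset ℕ) : ℕ :=
  (R.filter (fun q => (z.1, symmDiff z.2 {q}) ∈ A)).card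

/-- The same for a family of sets. -/
def Deg (R : Finset ℕ) (F : Finset (Finset ℕ)) (T : Finset ℕ) : ℕ :=
  (R.filter (fun q => symmDiff T {q} ∈ F)).card

/-- The list of exponents of the squarefree number with prime factors `T`. -/
def lst (ps : List ℕ) (T : Finset ℕ) : List ℕ := ps.map (fun p => if p ∈ T then 1 else 0)

/-- The part of `z` in `R`. -/
def sp (R : Finset ℕ) (z : ℕ × Finset ℕ) : ℕ := ∏ q ∈ z.2 ∩ R, q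

/-- The cofactor. -/
def xp (R : Finset ℕ) (z : ℕ × Finset ℕ) : ℕ := z.1 * ∏ q ∈ z.2 \ R, q

/-- ENC: the encoding `a = x * ∏ q ∈ T, q`: `T` is the set of the `q ∈ Q` which divide `a` with an
exponent `v` such that `v + c q` is odd, where `c q ∈ {0, 1}` is chosen such that at least half of
the pairs `a, q a` in `A` become pairs `(x, T), (x, insert q T)`. -/
def S_ENC : Prop := ∀ (A Q : Finset ℕ) (δ : ℝ), 0 ∉ A → (∀ q ∈ Q, q.Prime) →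
  (∀ q ∈ Q, δ * A.card ≤ ((A.filter (fun a => q * a ∈ A)).card : ℝ)) →
  ∃ A' : Finset (ℕ × Finset ℕ), A'.card = A.card ∧
    (∀ z ∈ A', z.2 ⊆ Q ∧ z.1 ≠ 0 ∧ z.1 * ∏ q ∈ z.2, q ∈ A) ∧
    Set.InjOn (fun z : ℕ × Finset ℕ => z.1 * ∏ q ∈ z.2, q) (A' : Set (ℕ × Finset ℕ)) ∧
    ∀ q ∈ Q, δ / 2 * A.card ≤ (Edg A' q : ℝ)

/-- PR1: pruning (take the subset `S` which maximises (number of edges) - `h |S|`). -/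
def S_PR1 : Prop := ∀ (A : Finset (ℕ × Finset ℕ)) (R : Finset ℕ) (δ : ℝ) (h : ℕ), 0 < δ → δ ≤ 1 →
  (∀ q ∈ R, δ * A.card ≤ (Edg A q : ℝ)) → 2 * (h : ℝ) ≤ δ * R.card →
  ∃ A' ⊆ A, (∀ z ∈ A', h ≤ DegA R A' z) ∧ δ * A.card ≤ (A'.card : ℝ)

/-- PR2: two blocks (uses PR1; `T` consecutive blocks of `g` elements of `Q`, inclusion-exclusion). -/
def S_PR2 : Prop := ∀ (Q : Finset ℕ) (g T : ℕ) (δ : ℝ), 0 < δ → δ ≤ 1 → 1 ≤ g → 2 ≤ δ * T →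
  T * g ≤ Q.card → ∀ (A : Finset (ℕ × Finset ℕ)) (h : ℕ), A.Nonempty →
  (∀ q ∈ Q, δ * A.card ≤ (Edg A q : ℝ)) → 2 * (h : ℝ) ≤ δ * g →
  ∃ Q0 Q1 : Finset ℕ, Q0 ⊆ Q ∧ Q1 ⊆ Q ∧ (∀ q ∈ Q0, ∀ p ∈ Q1, q < p) ∧ Q0.card = g ∧ Q1.card = g ∧
    ∃ A0 A1 : Finset (ℕ × Finset ℕ), A0 ⊆ A ∧ A1 ⊆ A ∧ (∀ z ∈ A0, h ≤ DegA Q0 A0 z) ∧
      (∀ z ∈ A1, h ≤ DegA Q1 A1 z) ∧ A.card ≤ T ^ 2 * (A0 ∩ A1).card

/-- SPH: spheres in a family of sets of large minimum degree, and the size of such a family. -/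
def S_SPH : Prop := ∀ (R : Finset ℕ) (F : Finset (Finset ℕ)) (h : ℕ), (∀ T ∈ F, h ≤ Deg R F T) →
  (∀ T ∈ F, ∀ j : ℕ, h.choose j ≤
    (F.filter (fun T' => symmDiff T T' ⊆ R ∧ (symmDiff T T').card = j)).card) ∧
  (F.Nonempty → 2 ^ h ≤ F.card)

/-- GEN: few members of such a family are in the sets `Z p` for many primes `p` (uses SPH). -/
def S_GEN : Prop := ∀ (Q0 I : Finset ℕ), (∀ q ∈ Q0, q.Prime) → (∀ p ∈ I, p.Prime) →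
  (∀ q ∈ Q0, ∀ p ∈ I, q < p) → ∀ (F : Finset (Finset ℕ)) (h : ℕ), (∀ T ∈ F, T ⊆ Q0) →
  (∀ T ∈ F, h ≤ Deg Q0 F T) → ∀ (m : ℕ → ℕ), (∀ p ∈ I, ¬ p ∣ m p) →
  ∀ (Z : ℕ → Finset ℕ) (K : ℕ), (∀ p ∈ I, (Z p).card ≤ K) → ∀ (F0 j : ℕ),
  F0.choose (2 * j) * h.choose j *
    (F.filter (fun T => F0 ≤ (I.filter (fun p => ((∏ q ∈ T, q) * m p) % p ∈ Z p)).card)).card ≤
    K ^ (2 * j) * I.card.choose (2 * j) * F.card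

/-- B2: the number of unfinished runs with exponents 0 and 1 (as `S_B`, see RD/PB.lean). -/
def S_B2 : Prop := ∀ (P : Par) (γ : ℝ), 0 ≤ γ → 1 ≤ P.K0 → P.K0 ≤ P.K1 →
  ∀ (ps : List ℕ), (∀ p ∈ ps, p.Prime) → ∀ (x b : ℤ) (C : Finset ℤ × Finset ℤ), x ∈ C.1 → b ∈ C.2 →
  ∀ (E : Finset (List ℕ)), (∀ l ∈ E, l.length = ps.length ∧ ∀ e ∈ l, e ≤ 1) →
  ((E.filter (fun l => ¬ Fin1 P (run P (ps.zip l) C x b))).card : ℝ) ≤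
    (1 + (P.K0 : ℝ) ^ (-γ)) ^ ps.length * ((C.1.card : ℝ) * C.2.card) ^ γ

/-- UC: unfinished runs (uses B2 and SPH; fibres of `z ↦ (z.1, z.2 \ Q1)`). -/
def S_UC : Prop := ∀ (P : Par) (γ : ℝ), 0 ≤ γ → 1 ≤ P.K0 → P.K0 ≤ P.K1 →
  ∀ (R : Finset ℕ) (ps : List ℕ), ps.toFinset ⊆ R → ps.Nodup → (∀ p ∈ ps, p.Prime) →
  ∀ (A1 : Finset (ℕ × Finset ℕ)) (h : ℕ), (∀ z ∈ A1, h ≤ DegA ps.toFinset A1 z) →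
  ∀ (X B : Finset ℤ), (∀ z ∈ A1, ((xp R z : ℕ) : ℤ) ∈ X) → ∀ b ∈ B,
  (2 : ℝ) ^ h * ((A1.filter (fun z =>
      ¬ Fin1 P (run P (ps.zip (lst ps z.2)) (X, B) ((xp R z : ℕ) : ℤ) b))).card : ℝ) ≤
    A1.card * ((1 + (P.K0 : ℝ) ^ (-γ)) ^ ps.length * ((X.card : ℝ) * B.card) ^ γ)

/-- GC: runs with many non generic steps (uses GEN and D2; fibres of `z ↦ (z.1, z.2 \ Q0)`). -/
def S_GC : Prop := ∀ (P : Par), 1 ≤ P.K1 → 1 ≤ P.K2 →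
  ∀ (Q0 : Finset ℕ) (ps : List ℕ), (∀ q ∈ Q0, q.Prime) → (∀ p ∈ ps, p.Prime) → ps.Nodup →
  (∀ q ∈ Q0, ∀ p ∈ ps, q < p) →
  ∀ (A0 : Finset (ℕ × Finset ℕ)) (h : ℕ), (∀ z ∈ A0, h ≤ DegA Q0 A0 z) →
  ∀ (X B : Finset ℤ) (b : ℤ) (F0 j : ℕ),
  (F0 + 1).choose (2 * j) * h.choose j *
    (A0.filter (fun z => F0 < bads P (sp (Q0 ∪ ps.toFinset) z) (ps.zip (lst ps z.2)) (X, B)
      ((xp (Q0 ∪ ps.toFinset) z : ℕ) : ℤ) b)).card ≤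
    ((P.K1 * P.K2) ^ 2) ^ (2 * j) * ps.length.choose (2 * j) * A0.card

/-- PH: the pigeonhole (uses A3). -/
def S_PH : Prop := ∀ (P : Par) (γ Λ : ℝ), 0 < γ → 1 ≤ P.K0 → 1 ≤ P.K1 → 1 ≤ P.K2 →
  1 + (P.K0 : ℝ) * (P.K1 : ℝ) ^ (-γ) + (P.K1 : ℝ) * (P.K2 : ℝ) ^ (-γ) + (P.K0 : ℝ) ^ (-γ) ≤ Λ →
  ∀ (R : Finset ℕ) (ps : List ℕ), (∀ q ∈ R, q.Prime) → ps.toFinset ⊆ R → ps.Nodup →
  ∀ (A : Finset ℕ) (A' : Finset (ℕ × Finset ℕ)), (∀ z ∈ A', z.1 * ∏ q ∈ z.2, q ∈ A) →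
  Set.InjOn (fun z : ℕ × Finset ℕ => z.1 * ∏ q ∈ z.2, q) (A' : Set (ℕ × Finset ℕ)) →
  ∀ (X B : Finset ℤ), (∀ z ∈ A', ((xp R z : ℕ) : ℤ) ∈ X) → ∀ (F0 : ℕ)
  (G : Finset ((ℕ × Finset ℕ) × ℤ)), (∀ w ∈ G, w.1 ∈ A' ∧ w.2 ∈ B ∧
    Fin1 P (run P (ps.zip (lst ps w.1.2)) (X, B) ((xp R w.1 : ℕ) : ℤ) w.2) ∧
    bads P (sp R w.1) (ps.zip (lst ps w.1.2)) (X, B) ((xp R w.1 : ℕ) : ℤ) w.2 ≤ F0) →
  (G.card : ℝ) ≤ 2 ^ R.card *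
    (P.K0 * Λ ^ ps.length * ((X.card : ℝ) * B.card) ^ γ * (P.K1 : ℝ) ^ F0) *
    ((A.image (Nat.cast : ℕ → ℤ) ×ˢ B).image (fun q => q.1 + q.2)).card

/-- KQ: the choice of the constants. -/
def S_KQ : Prop := ∀ (ε θ δ : ℝ), 0 < ε → ε ≤ 1 → 0 < θ → 0 < δ → δ ≤ 1 →
  ∃ (P : Par) (γ Λ : ℝ) (T N0 : ℕ), 1 ≤ P.K0 ∧ P.K0 ≤ P.K1 ∧ 1 ≤ P.K2 ∧ 0 < γ ∧ γ ≤ ε / 2 ∧
    1 + (P.K0 : ℝ) * (P.K1 : ℝ) ^ (-γ) + (P.K1 : ℝ) * (P.K2 : ℝ) ^ (-γ) + (P.K0 : ℝ) ^ (-γ) ≤ Λ ∧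
    1 ≤ T ∧ 2 ≤ δ * T ∧ 2 ≤ N0 ∧ ∀ N : ℕ, N0 ≤ N → ∃ g h j F0 : ℕ, 1 ≤ g ∧
      (T : ℝ) * g ≤ θ * Real.log N ∧ 2 * (h : ℝ) ≤ δ * g ∧
      4 * (T : ℝ) ^ 2 * ((1 + (P.K0 : ℝ) ^ (-γ)) ^ g * ((N : ℝ) * (N : ℝ) ^ (1 / ε)) ^ γ) ≤
        (2 : ℝ) ^ h ∧
      4 * T ^ 2 * (((P.K1 * P.K2) ^ 2) ^ (2 * j) * g.choose (2 * j)) ≤
        (F0 + 1).choose (2 * j) * h.choose j ∧
      1 ≤ (F0 + 1).choose (2 * j) * h.choose j ∧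
      (2 : ℝ) ^ (2 * g) * Λ ^ g * (P.K1 : ℝ) ^ F0 ≤ (N : ℝ) ^ (ε / 2)

/-- MN: the theorem for positive integers (uses everything above). -/
def S_MN : Prop := ∀ (δ θ ε : ℝ), 0 < δ → 0 < θ → 0 < ε → ∃ c > (0 : ℝ),
  ∀ (A Q : Finset ℕ), A.Nonempty → 0 ∉ A →
  (∀ q ∈ Q, q.Prime ∧ δ * A.card ≤ ((A.filter (fun a => q * a ∈ A)).card : ℝ)) →
  θ * Real.log A.card ≤ Q.card →
  ∀ B : Finset ℤ, B.Nonempty → c * ((A.card : ℝ) * B.card) ^ (1 - ε) ≤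
    (((A.image (Nat.cast : ℕ → ℤ) ×ˢ B).image (fun q => q.1 + q.2)).card : ℝ)

open scoped Pointwise in
/-- MZ: the theorem for integers (uses MN). -/
def S_MZ : Prop := ∀ (δ θ ε : ℝ), 0 < δ → 0 < θ → 0 < ε → ∃ c > (0 : ℝ),
  ∀ (A : Finset ℤ) (Q : Finset ℕ), A.Nonempty → 0 ∉ A →
  (∀ q ∈ Q, q.Prime ∧ δ * A.card ≤ ((A.filter (fun a => (q : ℤ) * a ∈ A)).card : ℝ)) →
  θ * Real.log A.card ≤ Q.card →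
  ∀ B : Finset ℤ, B.Nonempty → c * ((A.card : ℝ) * B.card) ^ (1 - ε) ≤ ((A + B).card : ℝ)

end

end Pool.Agent.Helper5.PQ
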